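import Pool.Agent.Lead.IP.HullA
import Pool.Agent.Helper53.Slit.Tri

/-!
The trilinear form of the slit strip: `In i` below is adjoint to `De i` above (left and right).
-/

namespace IP.Slit
open Finset IP

/-- the states of the two upper strips together, as a partition of the sites of the lower strip -/
def liftLR (n1 : ℕ) (t1 t2 : St) : St where
  r x y := (x ≤ n1 ∧ y ≤ n1 ∧ t1 x y) ∨ (n1 < x ∧ n1 < y ∧ t2 (x - n1 - 1) (y - n1 - 1))
  iseqv := by
    refine ⟨fun x => ?_, ?_, ?_⟩
    · rcases Nat.lt_or_ge n1 x with h | h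
      · exact Or.inr ⟨h, h, t2.refl _⟩
      · exact Or.inl ⟨h, h, t1.refl _⟩
    · rintro x y (⟨h1, h2, h3⟩ | ⟨h1, h2, h3⟩)
      · exact Or.inl ⟨h2, h1, t1.symm h3⟩
      · exact Or.inr ⟨h2, h1, t2.symm h3⟩
    · rintro x y z (⟨h1, h2, h3⟩ | ⟨h1, h2, h3⟩) (⟨h4, h5, h6⟩ | ⟨h4, h5, h6⟩)
      · exact Or.inl ⟨h1, h5, t1.trans h3 h6⟩
      · omega
      · omega
      · exact Or.inr ⟨h1, h5, t2.trans h3 h6⟩

theorem liftLR_iff (n1 : ℕ) (t1 t2 : St) (x y : ℕ) : (liftLR n1 t1 t2) x y ↔
    ((x ≤ n1 ∧ y ≤ n1 ∧ t1 x y) ∨ (n1 < x ∧ n1 < y ∧ t2 (x - n1 - 1) (y - n1 - 1))) := Iff.rfl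

theorem liftL_iff (n1 : ℕ) (t : St) (x y : ℕ) :
    (liftL n1 t) x y ↔ (x = y ∨ (x ≤ n1 ∧ y ≤ n1 ∧ t x y)) := Iff.rfl

theorem liftR_iff (n1 : ℕ) (t : St) (x y : ℕ) :
    (liftR n1 t) x y ↔ (x = y ∨ (n1 < x ∧ n1 < y ∧ t (x - n1 - 1) (y - n1 - 1))) := Iff.rfl

theorem liftL_sup_liftR (n1 : ℕ) (t1 t2 : St) : liftL n1 t1 ⊔ liftR n1 t2 = liftLR n1 t1 t2 := by
  apply le_antisymm
  · refine sup_le ?_ ?_
    · rw [Setoid.le_def]
      intro x y hxy
      rcases (liftL_iff _ _ _ _).1 hxy with rfl | h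
      · exact (liftLR n1 t1 t2).refl _
      · exact Or.inl h
    · rw [Setoid.le_def]
      intro x y hxy
      rcases (liftR_iff _ _ _ _).1 hxy with rfl | h
      · exact (liftLR n1 t1 t2).refl _
      · exact Or.inr h
  · rw [Setoid.le_def]
    intro x y hxy
    have h1 : liftL n1 t1 ≤ liftL n1 t1 ⊔ liftR n1 t2 := le_sup_left
    have h2 : liftR n1 t2 ≤ liftL n1 t1 ⊔ liftR n1 t2 := le_sup_right
    rw [Setoid.le_def] at h1 h2
    rcases (liftLR_iff _ _ _ _ _).1 hxy with h | h
    · exact h1 (Or.inr h)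
    · exact h2 (Or.inr h)

theorem cross_iff (n1 n2 : ℕ) (t1 t2 σ : St) :
    cross n1 n2 t1 t2 σ ↔ (σ ⊔ liftLR n1 t1 t2) n1 (n1 + n2 + 1) := by
  unfold cross
  rw [sup_assoc, liftL_sup_liftR]

/-! ### the general adjointness -/

theorem insS_sup (k : ℕ) (σ τ : St) {a b : ℕ} (ha : a ≠ k) (hb : b ≠ k) :
    (insS k σ ⊔ τ) a b ↔ (σ ⊔ Setoid.comap (skip k) τ) (unskip k a) (unskip k b) := by
  constructor
  · intro h
    have hd : detach k (insS k σ) = insS k σ := by
      ext x y
      rw [ha_detach_iff, ha_insS_iff]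
      tauto
    rw [← hd] at h
    have h3 := ha_detach_sup k (insS k σ) τ ha hb h
    rw [hd] at h3
    have h4 : insS k σ ⊔ detach k τ ≤ insS k (σ ⊔ Setoid.comap (skip k) τ) := by
      refine sup_le ?_ ?_
      · rw [Setoid.le_def]
        intro x y hxy
        rw [ha_insS_iff] at hxy ⊢
        rcases hxy with h5 | ⟨h5, h6, h7⟩
        · exact Or.inl h5
        · refine Or.inr ⟨h5, h6, ?_⟩
          have h8 : σ ≤ σ ⊔ Setoid.comap (skip k) τ := le_sup_left
          rw [Setoid.le_def] at h8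
          exact h8 h7
      · rw [Setoid.le_def]
        intro x y hxy
        rw [ha_detach_iff] at hxy
        rw [ha_insS_iff]
        rcases hxy with h5 | ⟨h5, h6, h7⟩
        · exact Or.inl h5
        · refine Or.inr ⟨h5, h6, ?_⟩
          have h8 : Setoid.comap (skip k) τ ≤ σ ⊔ Setoid.comap (skip k) τ := le_sup_right
          rw [Setoid.le_def] at h8
          refine h8 ?_
          rw [Setoid.comap_rel, ha_skip_unskip h5, ha_skip_unskip h6]
          exact h7
    rw [Setoid.le_def] at h4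
    have h5 := h4 h3
    rw [ha_insS_iff] at h5
    rcases h5 with h5 | ⟨_, _, h5⟩
    · rw [h5]
    · exact h5
  · intro h
    have h4 : σ ⊔ Setoid.comap (skip k) τ ≤ Setoid.comap (skip k) (insS k σ ⊔ τ) := by
      refine sup_le ?_ ?_
      · rw [Setoid.le_def]
        intro x y hxy
        rw [Setoid.comap_rel]
        have h8 : insS k σ ≤ insS k σ ⊔ τ := le_sup_left
        rw [Setoid.le_def] at h8
        refine h8 ?_
        rw [ha_insS_iff, ha_unskip_skip, ha_unskip_skip]
        exact Or.inr ⟨ha_skip_ne k x, ha_skip_ne k y, hxy⟩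
      · rw [Setoid.le_def]
        intro x y hxy
        rw [Setoid.comap_rel] at hxy ⊢
        have h8 : τ ≤ insS k σ ⊔ τ := le_sup_right
        rw [Setoid.le_def] at h8
        exact h8 hxy
    rw [Setoid.le_def] at h4
    have h5 := h4 h
    rw [Setoid.comap_rel, ha_skip_unskip ha, ha_skip_unskip hb] at h5
    exact h5

theorem coll_sup (k : ℕ) (σ τ : St) (a b : ℕ) :
    (Setoid.comap (coll k) σ ⊔ τ) a b ↔
      (σ ⊔ Setoid.comap (skip (k + 1)) (join k (k + 1) τ)) (coll k a) (coll k b) := by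
  constructor
  · intro h
    have h4 : Setoid.comap (coll k) σ ⊔ τ ≤
        Setoid.comap (coll k) (σ ⊔ Setoid.comap (skip (k + 1)) (join k (k + 1) τ)) := by
      refine sup_le ?_ ?_
      · rw [Setoid.le_def]
        intro x y hxy
        rw [Setoid.comap_rel] at hxy ⊢
        have h8 : σ ≤ σ ⊔ Setoid.comap (skip (k + 1)) (join k (k + 1) τ) := le_sup_left
        rw [Setoid.le_def] at h8
        exact h8 hxy
      · rw [Setoid.le_def]
        intro x y hxy
        rw [Setoid.comap_rel]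
        have h8 : Setoid.comap (skip (k + 1)) (join k (k + 1) τ) ≤
          σ ⊔ Setoid.comap (skip (k + 1)) (join k (k + 1) τ) := le_sup_right
        rw [Setoid.le_def] at h8
        refine h8 ?_
        rw [Setoid.comap_rel]
        have hz : ∀ z, (join k (k + 1) τ) (skip (k + 1) (coll k z)) z := by
          intro z
          by_cases hz : z = k + 1
          · have e : skip (k + 1) (coll k z) = k := by
              unfold skip coll; split_ifs <;> omega
            rw [e, hz]
            exact ha_join_pair _ _ _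
          · have e : skip (k + 1) (coll k z) = z := by
              unfold skip coll; split_ifs <;> omega
            rw [e]
        have h9 := ha_le_join k (k + 1) τ
        rw [Setoid.le_def] at h9
        exact (join k (k + 1) τ).trans (hz x) ((join k (k + 1) τ).trans (h9 hxy)
          ((join k (k + 1) τ).symm (hz y)))
    rw [Setoid.le_def] at h4
    have h5 := h4 h
    rw [Setoid.comap_rel] at h5
    exact h5
  · intro h
    set S : St := Setoid.comap (coll k) σ ⊔ τ with hS
    have hS1 : Setoid.comap (coll k) σ ≤ S := le_sup_left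
    have hS2 : τ ≤ S := le_sup_right
    have hkk : S k (k + 1) := by
      rw [Setoid.le_def] at hS1
      refine hS1 ?_
      rw [Setoid.comap_rel]
      have e : coll k k = coll k (k + 1) := by unfold coll; split_ifs <;> omega
      rw [e]
    have h4 : σ ⊔ Setoid.comap (skip (k + 1)) (join k (k + 1) τ) ≤ Setoid.comap (skip (k + 1)) S := by
      refine sup_le ?_ ?_
      · rw [Setoid.le_def]
        intro x y hxy
        rw [Setoid.comap_rel]
        rw [Setoid.le_def] at hS1
        refine hS1 ?_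
        rw [Setoid.comap_rel, ha_coll_skip, ha_coll_skip]
        exact hxy
      · rw [Setoid.le_def]
        intro x y hxy
        rw [Setoid.comap_rel] at hxy ⊢
        have h9 : join k (k + 1) τ ≤ S := ha_join_le hS2 hkk
        rw [Setoid.le_def] at h9
        exact h9 hxy
    rw [Setoid.le_def] at h4
    have h5 := h4 h
    rw [Setoid.comap_rel] at h5
    have hz : ∀ z, S z (skip (k + 1) (coll k z)) := by
      intro z
      by_cases hz : z = k + 1
      · have e : skip (k + 1) (coll k z) = k := by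
          unfold skip coll; split_ifs <;> omega
        rw [e, hz]
        exact S.symm hkk
      · have e : skip (k + 1) (coll k z) = z := by
          unfold skip coll; split_ifs <;> omega
        rw [e]
    exact S.trans (hz a) (S.trans h5 (S.symm (hz b)))

/-! ### deletion in the two upper strips -/

theorem comap_skip_liftLR_left {n1 k : ℕ} (hk : k ≤ n1) (t1 t2 : St) :
    Setoid.comap (skip k) (liftLR (n1 + 1) t1 t2) = liftLR n1 (Setoid.comap (skip k) t1) t2 := by
  ext x y
  rw [Setoid.comap_rel, liftLR_iff, liftLR_iff, Setoid.comap_rel]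
  have h1 : ∀ z, skip k z ≤ n1 + 1 ↔ z ≤ n1 := by
    intro z; unfold skip; split_ifs <;> omega
  have h2 : ∀ z, n1 + 1 < skip k z ↔ n1 < z := by
    intro z; unfold skip; split_ifs <;> omega
  have h3 : ∀ z, n1 < z → skip k z - (n1 + 1) - 1 = z - n1 - 1 := by
    intro z hz; unfold skip; split_ifs <;> omega
  rw [h1, h1, h2, h2]
  constructor
  · rintro (h | ⟨h4, h5, h6⟩)
    · exact Or.inl h
    · rw [h3 x h4, h3 y h5] at h6
      exact Or.inr ⟨h4, h5, h6⟩
  · rintro (h | ⟨h4, h5, h6⟩)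
    · exact Or.inl h
    · rw [← h3 x h4, ← h3 y h5] at h6
      exact Or.inr ⟨h4, h5, h6⟩

theorem comap_skip_liftLR_right (n1 k : ℕ) (t1 t2 : St) :
    Setoid.comap (skip (n1 + 1 + k)) (liftLR n1 t1 t2) = liftLR n1 t1 (Setoid.comap (skip k) t2) := by
  ext x y
  rw [Setoid.comap_rel, liftLR_iff, liftLR_iff, Setoid.comap_rel]
  have h1 : ∀ z, skip (n1 + 1 + k) z ≤ n1 ↔ z ≤ n1 := by
    intro z; unfold skip; split_ifs <;> omega
  have h1' : ∀ z, z ≤ n1 → skip (n1 + 1 + k) z = z := by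
    intro z hz; unfold skip; split_ifs <;> omega
  have h2 : ∀ z, n1 < skip (n1 + 1 + k) z ↔ n1 < z := by
    intro z; unfold skip; split_ifs <;> omega
  have h3 : ∀ z, n1 < z → skip (n1 + 1 + k) z - n1 - 1 = skip k (z - n1 - 1) := by
    intro z hz; unfold skip; split_ifs <;> omega
  rw [h1, h1, h2, h2]
  constructor
  · rintro (⟨h4, h5, h6⟩ | ⟨h4, h5, h6⟩)
    · rw [h1' x h4, h1' y h5] at h6
      exact Or.inl ⟨h4, h5, h6⟩
    · rw [h3 x h4, h3 y h5] at h6
      exact Or.inr ⟨h4, h5, h6⟩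
  · rintro (⟨h4, h5, h6⟩ | ⟨h4, h5, h6⟩)
    · refine Or.inl ⟨h4, h5, ?_⟩
      rw [h1' x h4, h1' y h5]
      exact h6
    · refine Or.inr ⟨h4, h5, ?_⟩
      rw [h3 x h4, h3 y h5]
      exact h6

theorem join_liftLR_left {n1 j k : ℕ} (hj : j ≤ n1) (hk : k ≤ n1) (t1 t2 : St) :
    join j k (liftLR n1 t1 t2) = liftLR n1 (join j k t1) t2 := by
  ext x y
  rw [ha_join_iff, liftLR_iff, liftLR_iff, liftLR_iff, liftLR_iff, liftLR_iff, liftLR_iff, ha_join_iff]
  constructor
  · rintro ((h | h) | ⟨h1 | h1, h2 | h2⟩ | ⟨h1 | h1, h2 | h2⟩)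
    · exact Or.inl ⟨h.1, h.2.1, Or.inl h.2.2⟩
    · exact Or.inr h
    · exact Or.inl ⟨h1.1, h2.2.1, Or.inr (Or.inl ⟨h1.2.2, h2.2.2⟩)⟩
    · omega
    · omega
    · omega
    · exact Or.inl ⟨h1.1, h2.2.1, Or.inr (Or.inr ⟨h1.2.2, h2.2.2⟩)⟩
    · omega
    · omega
    · omega
  · rintro (⟨h1, h2, h | h | h⟩ | h)
    · exact Or.inl (Or.inl ⟨h1, h2, h⟩)
    · exact Or.inr (Or.inl ⟨Or.inl ⟨h1, hj, h.1⟩, Or.inl ⟨hk, h2, h.2⟩⟩)
    · exact Or.inr (Or.inr ⟨Or.inl ⟨h1, hk, h.1⟩, Or.inl ⟨hj, h2, h.2⟩⟩)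
    · exact Or.inl (Or.inr h)

theorem join_liftLR_right (n1 j k : ℕ) (t1 t2 : St) :
    join (n1 + 1 + j) (n1 + 1 + k) (liftLR n1 t1 t2) = liftLR n1 t1 (join j k t2) := by
  ext x y
  rw [ha_join_iff, liftLR_iff, liftLR_iff, liftLR_iff, liftLR_iff, liftLR_iff, liftLR_iff, ha_join_iff]
  have e1 : n1 + 1 + j - n1 - 1 = j := by omega
  have e2 : n1 + 1 + k - n1 - 1 = k := by omega
  rw [e1, e2]
  constructor
  · rintro ((h | h) | ⟨h1 | h1, h2 | h2⟩ | ⟨h1 | h1, h2 | h2⟩)
    · exact Or.inl h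
    · exact Or.inr ⟨h.1, h.2.1, Or.inl h.2.2⟩
    · omega
    · omega
    · omega
    · exact Or.inr ⟨h1.1, h2.2.1, Or.inr (Or.inl ⟨h1.2.2, h2.2.2⟩)⟩
    · omega
    · omega
    · omega
    · exact Or.inr ⟨h1.1, h2.2.1, Or.inr (Or.inr ⟨h1.2.2, h2.2.2⟩)⟩
  · rintro (h | ⟨h1, h2, h | h | h⟩)
    · exact Or.inl (Or.inl h)
    · exact Or.inl (Or.inr ⟨h1, h2, h⟩)
    · exact Or.inr (Or.inl ⟨Or.inr ⟨h1, by omega, h.1⟩, Or.inr ⟨by omega, h2, h.2⟩⟩)
    · exact Or.inr (Or.inr ⟨Or.inr ⟨h1, by omega, h.1⟩, Or.inr ⟨by omega, h2, h.2⟩⟩)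

/-! ### the crossing event -/

theorem cross_ins_left {n1 n2 i : ℕ} (hi : i ≤ 2 * n1 + 1) (t1 t2 σ : St) :
    cross (n1 + 1) n2 t1 t2 (ins i σ) ↔ cross n1 n2 (del i t1) t2 σ := by
  rw [cross_iff, cross_iff]
  rcases Nat.even_or_odd' i with ⟨k, rfl | rfl⟩
  · rw [ha_ins_even, ha_del_even]
    refine (insS_sup k σ (liftLR (n1 + 1) t1 t2) (a := n1 + 1) (b := n1 + 1 + n2 + 1) (by omega)
      (by omega)).trans ?_
    have e1 : unskip k (n1 + 1) = n1 := by unfold unskip; split_ifs <;> omega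
    have e2 : unskip k (n1 + 1 + n2 + 1) = n1 + n2 + 1 := by unfold unskip; split_ifs <;> omega
    rw [e1, e2, comap_skip_liftLR_left (by omega)]
  · rw [ha_ins_odd, ha_del_odd]
    refine (coll_sup k σ (liftLR (n1 + 1) t1 t2) (n1 + 1) (n1 + 1 + n2 + 1)).trans ?_
    rw [join_liftLR_left (by omega) (by omega)]
    have e1 : coll k (n1 + 1) = n1 := by unfold coll; split_ifs <;> omega
    have e2 : coll k (n1 + 1 + n2 + 1) = n1 + n2 + 1 := by unfold coll; split_ifs <;> omega
    rw [e1, e2]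
    by_cases hk : k + 1 ≤ n1
    · rw [comap_skip_liftLR_left hk]
    · have hk' : k = n1 := by omega
      subst hk'
      have e3 : Setoid.comap (skip (k + 1)) (liftLR (k + 1) (join k (k + 1) t1) t2) =
          liftLR k (Setoid.comap (skip (k + 1)) (join k (k + 1) t1)) t2 := by
        ext x y
        rw [Setoid.comap_rel, liftLR_iff, liftLR_iff, Setoid.comap_rel]
        have h1 : ∀ z, skip (k + 1) z ≤ k + 1 ↔ z ≤ k := by
          intro z; unfold skip; split_ifs <;> omega
        have h2 : ∀ z, k + 1 < skip (k + 1) z ↔ k < z := by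
          intro z; unfold skip; split_ifs <;> omega
        have h3 : ∀ z, k < z → skip (k + 1) z - (k + 1) - 1 = z - k - 1 := by
          intro z hz; unfold skip; split_ifs <;> omega
        rw [h1, h1, h2, h2]
        constructor
        · rintro (h | ⟨h4, h5, h6⟩)
          · exact Or.inl h
          · rw [h3 x h4, h3 y h5] at h6
            exact Or.inr ⟨h4, h5, h6⟩
        · rintro (h | ⟨h4, h5, h6⟩)
          · exact Or.inl h
          · rw [← h3 x h4, ← h3 y h5] at h6
            exact Or.inr ⟨h4, h5, h6⟩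
      rw [e3]

theorem cross_ins_right {n1 n2 i : ℕ} (hi : i ≤ 2 * n2 + 1) (t1 t2 σ : St) :
    cross n1 (n2 + 1) t1 t2 (ins (2 * n1 + 2 + i) σ) ↔ cross n1 n2 t1 (del i t2) σ := by
  rw [cross_iff, cross_iff]
  rcases Nat.even_or_odd' i with ⟨k, rfl | rfl⟩
  · have e0 : 2 * n1 + 2 + 2 * k = 2 * (n1 + 1 + k) := by ring
    rw [e0, ha_ins_even, ha_del_even]
    refine (insS_sup (n1 + 1 + k) σ (liftLR n1 t1 t2) (a := n1) (b := n1 + (n2 + 1) + 1)
      (by omega) (by omega)).trans ?_
    have e1 : unskip (n1 + 1 + k) n1 = n1 := by unfold unskip; split_ifs <;> omega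
    have e2 : unskip (n1 + 1 + k) (n1 + (n2 + 1) + 1) = n1 + n2 + 1 := by
      unfold unskip; split_ifs <;> omega
    rw [e1, e2, comap_skip_liftLR_right]
  · have e0 : 2 * n1 + 2 + (2 * k + 1) = 2 * (n1 + 1 + k) + 1 := by ring
    rw [e0, ha_ins_odd, ha_del_odd]
    refine (coll_sup (n1 + 1 + k) σ (liftLR n1 t1 t2) n1 (n1 + (n2 + 1) + 1)).trans ?_
    rw [show n1 + 1 + k + 1 = n1 + 1 + (k + 1) by ring, join_liftLR_right, comap_skip_liftLR_right]
    have e1 : coll (n1 + 1 + k) n1 = n1 := by unfold coll; split_ifs <;> omega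
    have e2 : coll (n1 + 1 + k) (n1 + (n2 + 1) + 1) = n1 + n2 + 1 := by
      unfold coll; split_ifs <;> omega
    rw [e1, e2]

/-! ### the trilinear form -/

open Classical in
theorem tri_In_left {n1 n2 i : ℕ} (hi : i ≤ 2 * n1 + 1) (v1 v2 v : M) :
    tri (n1 + 1) n2 v1 v2 (In i v) = tri n1 n2 (De i v1) v2 v := by
  induction v1 using Finsupp.induction_linear with
  | zero => rw [map_zero, tri_zero1, tri_zero1]
  | add v v' h h' => rw [map_add, tri_add1, tri_add1, h, h']
  | single t1 x1 =>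
    induction v2 using Finsupp.induction_linear with
    | zero => rw [tri_zero2, tri_zero2]
    | add v v' h h' => rw [tri_add2, tri_add2, h, h']
    | single t2 x2 =>
      induction v using Finsupp.induction_linear with
      | zero => rw [map_zero, tri_zero3, tri_zero3]
      | add v v' h h' => rw [map_add, tri_add3, tri_add3, h, h']
      | single σ x =>
        rw [In_single, De_single, tri_single, tri_single]
        unfold cf
        simp only [cross_ins_left hi t1 t2 σ]

open Classical in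
theorem tri_In_right {n1 n2 i : ℕ} (hi : i ≤ 2 * n2 + 1) (v1 v2 v : M) :
    tri n1 (n2 + 1) v1 v2 (In (2 * n1 + 2 + i) v) = tri n1 n2 v1 (De i v2) v := by
  induction v1 using Finsupp.induction_linear with
  | zero => rw [tri_zero1, tri_zero1]
  | add v v' h h' => rw [tri_add1, tri_add1, h, h']
  | single t1 x1 =>
    induction v2 using Finsupp.induction_linear with
    | zero => rw [map_zero, tri_zero2, tri_zero2]
    | add v v' h h' => rw [map_add, tri_add2, tri_add2, h, h']
    | single t2 x2 =>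
      induction v using Finsupp.induction_linear with
      | zero => rw [map_zero, tri_zero3, tri_zero3]
      | add v v' h h' => rw [map_add, tri_add3, tri_add3, h, h']
      | single σ x =>
        rw [In_single, De_single, tri_single, tri_single]
        unfold cf
        simp only [cross_ins_right hi t1 t2 σ]

end IP.Slit
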